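import Pool.Agent.Lib.MP_23f460_nt.D.Abs
import Pool.Agent.Lib.MP_23f460_nt.D.Ari

/-! Over every Hasse domain the Euclidean forms that are anisotropic at every place of `S` fall
into finitely many isomorphism classes, the number of variables being arbitrary. -/

set_option autoImplicit false

namespace Pool.Agent.Results.MP_23f460_nt.Definite

open Pool.Agent.Lib.MP_23f460_nt.D Matrix MvPolynomial

theorem map_Qf {R A : Type} [CommRing R] [CommRing A] (f : R →+* A) {n : ℕ}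
    (a : Matrix (Fin n) (Fin n) R) (x : Fin n → R) : Qf (a.map f) (f ∘ x) = f (Qf a x) := by
  simp [Qf, dotProduct, mulVec]

theorem map_Bf {R A : Type} [CommRing R] [CommRing A] (f : R →+* A) {n : ℕ}
    (a : Matrix (Fin n) (Fin n) R) (x y : Fin n → R) :
    Bf (a.map f) (f ∘ x) (f ∘ y) = f (Bf a x y) := by
  simp [Bf, dotProduct, mulVec]

theorem result (K : Type) [Field K] (S : Finset (AbsoluteValue K ℝ)) (R : Subring K)
    [IsFractionRing R K] (H : IsHasse K S R) :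
    ∃ T : Set (Σ n : ℕ, MvPolynomial (Fin n) R), T.Finite ∧
      ∀ (n : ℕ) (q : MvPolynomial (Fin n) R), IsForm K q → Definite S q → IsEuclidean K q →
        ∃ q' : MvPolynomial (Fin n) R, ⟨n, q'⟩ ∈ T ∧ Isomorphic q' q := by
  have := fin_quot H
  obtain ⟨m, hm, hm'⟩ := ex_nonunit H
  have h2 : (2 : R) ≠ 0 := fun e => H.two (congrArg R.subtype e)
  let 𝒞 : Set (Σ n : ℕ, Matrix (Fin n) (Fin n) R) := {a | ∃ q : MvPolynomial (Fin a.1) R,
    Definite S q ∧ IsEuclidean K q ∧ ∀ (A : Type) [CommRing A] [Algebra R A] (x : Fin a.1 → A),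
      aeval x q = Qf (a.2.map (algebraMap R A)) x}
  have hi : ∀ v : AbsoluteValue K ℝ, ∀ x : R, ‖algebraMap R v.Completion x‖ = v x := fun v x => by
    rw [UniformSpace.Completion.algebraMap_def, UniformSpace.Completion.norm_coe]
    rfl
  have an : ∀ a ∈ 𝒞, ∀ x, x ≠ 0 → Qf a.2 x ≠ 0 := by
    rintro a ⟨q, hq, -, e⟩ x hx h
    obtain ⟨v, hv⟩ := H.nonempty
    refine hq v hv (algebraMap R _ ∘ x) (fun h0 => hx (funext fun i => Subtype.ext ?_)) ?_
    · exact v.eq_zero.1 ((hi v _).symm.trans (norm_eq_zero.2 (congrFun h0 i)))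
    · rw [e, map_Qf, h, map_zero]
  obtain ⟨Y, hY, h⟩ := abs_fin h2 hm hm' (fin_units H) 𝒞 an (fun t t' => by
    choose C h0 hC using fun v : S => ex_cs (H.place v.1 v.2)
    refine ((fin_bdd H (1 + ∑ v : S, C v * v.1 t * v.1 t')).preimage
      Subtype.val_injective.injOn).subset ?_
    rintro _ ⟨a, ha, z, w, rfl, rfl, rfl⟩
    refine ⟨Subtype.prop _, fun v hv => ?_⟩
    obtain ⟨q, hq, -, e⟩ := id ha
    have h1 := hC ⟨v, hv⟩ (algebraMap R _ (Qf a.2 z)) (algebraMap R _ (Bf a.2 z w))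
      (algebraMap R _ (Qf a.2 w)) (by
        rintro ⟨X, hX⟩
        rw [← map_Qf, ← map_Qf, ← map_Bf] at *
        generalize algebraMap R v.Completion ∘ z = z' at *
        generalize algebraMap R v.Completion ∘ w = w' at *
        have h3 : X • z' + (1 : v.Completion) • w' = 0 := by
          by_contra h3
          exact hq v hv _ h3 (by rw [e, Qf_lin, ← hX]; ring)
        obtain rfl : w' = (-X) • z' := by
          rw [neg_smul, eq_neg_iff_add_eq_zero, add_comm, ← h3, one_smul]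
        rw [Qf_smul, Bf, mulVec_smul, dotProduct_smul, ← Bf, Bf_self, smul_eq_mul]
        ring) fun h3 => by
        by_cases hz : z = 0
        · simp [hz, Bf]
        · exact absurd (Subtype.ext (v.eq_zero.1 ((hi v _).symm.trans (norm_eq_zero.2 h3))))
            (an a ha z hz)
    rw [hi, hi, hi] at h1
    have h3 := Finset.single_le_sum
      (f := fun v : S => C v * v.1 (Qf a.2 z : R) * v.1 (Qf a.2 w : R))
      (fun v _ => mul_nonneg (mul_nonneg (h0 v) (v.1.nonneg _)) (v.1.nonneg _))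
      (Finset.mem_univ ⟨v, hv⟩)
    nlinarith [sq_nonneg (v (Bf a.2 z w : R) - 1)]) (by
    rintro a ⟨q, -, hq, e⟩ c
    have hm0 : algebraMap R K m ≠ 0 := fun e => hm (Subtype.ext e)
    refine or_iff_not_imp_left.2 fun hc => ?_
    obtain ⟨y, -, hy⟩ := hq (fun i => algebraMap R K (c i) / algebraMap R K m) fun ⟨b, hb⟩ =>
      hc fun i => Ideal.mem_span_singleton'.2 ⟨b i, IsFractionRing.injective R K (by
        rw [map_mul, hb, div_mul_cancel₀ _ hm0])⟩
    refine ⟨y, frac_lt (K := K) (pow_ne_zero 2 hm) ?_⟩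
    have h3 : (fun i => algebraMap R K (c i) / algebraMap R K m - algebraMap R K (y i)) =
        (algebraMap R K m)⁻¹ • (algebraMap R K ∘ (c - m • y)) := funext fun i => by
      simp only [Pi.smul_apply, Function.comp_apply, Pi.sub_apply, smul_eq_mul, map_sub, map_mul]
      field_simp
    rwa [e, h3, Qf_smul, map_Qf, inv_pow, ← map_pow, ← div_eq_inv_mul] at hy)
  have hf : ∀ y : Σ n : ℕ, Matrix (Fin n) (Fin n) R × Submodule R (Fin n → R),
      ∃ q' : MvPolynomial (Fin y.1) R, ∀ (q : MvPolynomial (Fin y.1) R) a P M,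
        (∀ x, eval x q = Qf a x) → y.2.1.det ≠ 0 → Pᵀ * (a + aᵀ) * P = y.2.1 →
        P * M = y.2.1.det • 1 → LinearMap.range M.mulVecLin = y.2.2 → Isomorphic q' q := fun y => by
    by_cases h : ∃ (q : MvPolynomial (Fin y.1) R) (a P M : Matrix (Fin y.1) (Fin y.1) R),
        (∀ x, eval x q = Qf a x) ∧ Pᵀ * (a + aᵀ) * P = y.2.1 ∧
        P * M = y.2.1.det • 1 ∧ LinearMap.range M.mulVecLin = y.2.2
    · obtain ⟨q', a', P', M', e', h1, h3, h4⟩ := h
      refine ⟨q', fun q a P M e hg k1 k3 k4 => ?_⟩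
      obtain ⟨C, hC⟩ := iso_of h2 hg (k1.trans h1.symm) k3 h3 (k4.trans h4.symm)
      exact ⟨C, fun x => by rw [e, e', hC]⟩
    · exact ⟨0, fun q a P M e _ k1 k3 k4 => absurd ⟨q, a, P, M, e, k1, k3, k4⟩ h⟩
  choose f hf using hf
  refine ⟨_, hY.image fun y => ⟨y.1, f y⟩, fun n q h1 h3 h4 => ?_⟩
  obtain ⟨a, ha⟩ := hom_two h1.1
  obtain ⟨G, L, k1, k2, P, M, k3, k4, k5⟩ := h ⟨n, a⟩ ⟨q, h3, h4, ha⟩
  exact ⟨f ⟨n, G, L⟩, ⟨_, k1, rfl⟩, hf ⟨n, G, L⟩ q a P M
    (fun x => by simpa [coe_aeval_eq_eval] using ha R x) k2 k3 k4 k5⟩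

end Pool.Agent.Results.MP_23f460_nt.Definite
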