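import Pool.Agent.Lib.MP_23f460_nt.Core

/-!
Infinitely many anisotropic Euclidean quadratic forms over the Hasse domain `ℤ[1/2]`,
in every number `n ≥ 15` of variables.
-/

namespace Pool.Agent.Results.MP_23f460_nt.Infinite

open IsDedekindDomain NumberField MvPolynomial

open Classical in
/-- The canonical norm: `|a| = #(R / aR)` for `a ≠ 0`, and `|0| = 0`. -/
noncomputable def canNorm {R : Type} [CommRing R] (a : R) : ℕ :=
  if a = 0 then 0 else Nat.card (R ⧸ Ideal.span {a})

/-- The canonical norm on the fraction field: `|a / b| = |a| / |b|`, where `z = a / b` is the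
representation of `z` as a fraction chosen by `IsLocalization.sec`. -/
noncomputable def fracNorm (R : Type) {K : Type} [CommRing R] [Field K] [Algebra R K]
    [IsFractionRing R K] (z : K) : ℚ :=
  (canNorm (IsLocalization.sec (nonZeroDivisors R) z).1 : ℚ) /
    (canNorm ((IsLocalization.sec (nonZeroDivisors R) z).2 : R) : ℚ)

/-- A quadratic form: homogeneous polynomial of degree two, nondegenerate over `K`. -/
def IsForm (K : Type) {R : Type} [CommRing R] [Field K] [Algebra R K] {n : ℕ}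
    (q : MvPolynomial (Fin n) R) : Prop :=
  q.IsHomogeneous 2 ∧
    ∀ x : Fin n → K, (∀ y : Fin n → K, aeval (x + y) q - aeval x q - aeval y q = 0) → x = 0

/-- `q(a) ≠ 0` for every nonzero `a ∈ R^n`. -/
def Anisotropic {R : Type} [CommRing R] {n : ℕ} (q : MvPolynomial (Fin n) R) : Prop :=
  ∀ a : Fin n → R, a ≠ 0 → eval a q ≠ 0

/-- For every `x ∈ K^n` outside `R^n` there is `y ∈ R^n` with `0 < |q(x - y)| < 1`. -/
def IsEuclidean (K : Type) {R : Type} [CommRing R] [Field K] [Algebra R K] [IsFractionRing R K]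
    {n : ℕ} (q : MvPolynomial (Fin n) R) : Prop :=
  ∀ x : Fin n → K, (¬ ∃ a : Fin n → R, ∀ i, algebraMap R K (a i) = x i) →
    ∃ y : Fin n → R, 0 < fracNorm R (aeval (fun i => x i - algebraMap R K (y i)) q) ∧
      fracNorm R (aeval (fun i => x i - algebraMap R K (y i)) q) < 1

/-- `q'(x) = q(A x)` for some `A ∈ GL_n(R)`. -/
def Isomorphic {R : Type} [CommRing R] {n : ℕ} (q q' : MvPolynomial (Fin n) R) : Prop :=
  ∃ A : GL (Fin n) R, ∀ x : Fin n → R,
    eval x q' = eval ((A : Matrix (Fin n) (Fin n) R).mulVec x) q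

/-- The set of finite places of `ℚ` dividing `2`. -/
def placesOverTwo : Set (HeightOneSpectrum (𝓞 ℚ)) := {v | (2 : 𝓞 ℚ) ∈ v.asIdeal}

open Pool.Agent.Lib.MP_23f460_nt

lemma finite_places : placesOverTwo.Finite := by
  have h := Ideal.finite_factors (I := Ideal.span {(2 : 𝓞 ℚ)}) (by simp)
  refine h.subset fun v hv => ?_
  simp only [Set.mem_ofPred_eq, Ideal.dvd_span_singleton]
  exact hv

lemma mem_iff (x : ℚ) :
    x ∈ placesOverTwo.integer ℚ ↔ ∃ (k : ℕ) (m : ℤ), x * 2 ^ k = m := by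
  have h0 : x ∈ placesOverTwo.integer ℚ ↔
      ∀ v, v ∉ placesOverTwo → v.valuation ℚ x ≤ 1 := Iff.rfl
  rw [h0]
  simp only [Rat.valuation_le_one_iff_den]
  constructor
  · intro h
    obtain ⟨e, d, hd, hed⟩ := Nat.exists_eq_two_pow_mul_odd x.den_nz
    have hd1 : d = 1 := by
      by_contra hd1
      obtain ⟨l, hl, hld⟩ := Nat.exists_prime_and_dvd hd1
      have hnu : ¬ IsUnit ((l : ℕ) : 𝓞 ℚ) := by
        intro hu
        have h1 := hu.map Rat.ringOfIntegersEquiv
        rw [map_natCast] at h1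
        exact (Nat.prime_iff_prime_int.mp hl).not_isUnit h1
      obtain ⟨M, hM, hle⟩ := Ideal.exists_le_maximal (Ideal.span {((l : ℕ) : 𝓞 ℚ)})
        (by rwa [Ne, Ideal.span_singleton_eq_top])
      have hlM : ((l : ℕ) : 𝓞 ℚ) ∈ M := hle (Ideal.mem_span_singleton_self _)
      have hM0 : M ≠ ⊥ := by
        intro h0
        rw [h0, Ideal.mem_bot] at hlM
        exact hl.ne_zero (by exact_mod_cast hlM)
      have hlo : Odd l := hd.of_dvd_nat hld
      obtain ⟨t, ht⟩ := hlo
      refine h ⟨M, hM.isPrime, hM0⟩ ?_ ?_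
      · intro h2
        have h2' : (2 : 𝓞 ℚ) ∈ M := h2
        apply hM.ne_top
        rw [Ideal.eq_top_iff_one]
        have : (1 : 𝓞 ℚ) = (l : ℕ) - 2 * (t : ℕ) := by rw [ht]; push_cast; ring
        rw [this]
        exact M.sub_mem hlM (M.mul_mem_right _ h2')
      · obtain ⟨r, hr⟩ := hld
        show ((x.den : ℕ) : 𝓞 ℚ) ∈ M
        rw [hed, hr]
        push_cast
        exact M.mul_mem_left _ (M.mul_mem_right _ hlM)
    refine ⟨e, x.num, ?_⟩
    have : (x.den : ℚ) = 2 ^ e := by rw [hed, hd1]; push_cast; ring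
    rw [← this, Rat.mul_den_eq_num]
  · rintro ⟨k, m, hkm⟩ v hv hden
    have h1 : x = (m : ℚ) / ((2 ^ k : ℤ) : ℚ) := by
      rw [← hkm]; push_cast; field_simp
    have h2 : (x.den : ℤ) ∣ 2 ^ k := by
      rw [h1, ← Rat.divInt_eq_div]
      exact Rat.den_dvd _ _
    have h3 : x.den ∣ 2 ^ k := by exact_mod_cast h2
    obtain ⟨r, hr⟩ := h3
    have h4 : (2 : 𝓞 ℚ) ^ k ∈ v.asIdeal := by
      have : (2 : 𝓞 ℚ) ^ k = (x.den : ℕ) * (r : ℕ) := by exact_mod_cast congrArg (Nat.cast : ℕ → 𝓞 ℚ) hr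
      rw [this]
      exact v.asIdeal.mul_mem_right _ hden
    exact hv (v.isPrime.mem_of_pow_mem k h4)

/-- Short name for the ring `ℤ[1/2]`, used in the proofs only. -/
abbrev R2 : Type := placesOverTwo.integer ℚ

lemma exists_int (r : R2) : ∃ (k : ℕ) (m : ℤ), r * 2 ^ k = m := by
  obtain ⟨k, m, h⟩ := (mem_iff r.1).mp r.2
  refine ⟨k, m, Subtype.ext ?_⟩
  have h2 : ((2 : R2) : ℚ) = 2 := rfl
  simpa [h2] using h

lemma isUnit_two : IsUnit (2 : R2) := by
  have h : (1 / 2 : ℚ) ∈ placesOverTwo.integer ℚ := (mem_iff _).mpr ⟨1, 1, by norm_num⟩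
  refine IsUnit.of_mul_eq_one (⟨1 / 2, h⟩ : R2) (Subtype.ext ?_)
  have : ((2 : R2) : ℚ) = 2 := rfl
  simp [this]

lemma card_quot (d : ℕ) (hd : Odd d) : Nat.card (R2 ⧸ Ideal.span {(d : R2)}) = d := by
  have hcop : IsCoprime (d : ℤ) 2 := by
    have : Nat.Coprime d 2 := Nat.coprime_two_right.mpr hd
    exact_mod_cast Nat.isCoprime_iff_coprime.mpr this
  let f : ℤ →+* R2 ⧸ Ideal.span {(d : R2)} := Int.castRingHom _
  have hf : ∀ m : ℤ, f m = Ideal.Quotient.mk _ (m : R2) := fun m => by simp [f]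
  have hsurj : Function.Surjective f := by
    intro z
    obtain ⟨r, rfl⟩ := Ideal.Quotient.mk_surjective z
    obtain ⟨k, m, h⟩ := exists_int r
    obtain ⟨a, b, hab⟩ := hcop.pow_right (n := k)
    refine ⟨b * m, ?_⟩
    rw [hf, Ideal.Quotient.eq, Ideal.mem_span_singleton]
    refine ⟨-(a * r), ?_⟩
    have h1 : (a : R2) * d + b * 2 ^ k = 1 := by exact_mod_cast congrArg (Int.cast : ℤ → R2) hab
    push_cast
    linear_combination (-(b : R2)) * h + r * h1
  have hker : RingHom.ker f = Ideal.span {(d : ℤ)} := by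
    ext m
    rw [RingHom.mem_ker, hf, Ideal.Quotient.eq_zero_iff_mem, Ideal.mem_span_singleton,
      Ideal.mem_span_singleton]
    constructor
    · rintro ⟨r, hr⟩
      obtain ⟨k, m', h⟩ := exists_int r
      have h1 : ((m * 2 ^ k : ℤ) : R2) = ((d * m' : ℤ) : R2) := by
        push_cast
        linear_combination (2 ^ k : R2) * hr + (d : R2) * h
      have h2 : m * 2 ^ k = d * m' := Int.cast_injective h1
      exact (hcop.pow_right (n := k)).dvd_of_dvd_mul_right ⟨_, h2⟩
    · rintro ⟨r, hr⟩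
      exact ⟨r, by rw [hr]; push_cast; ring⟩
  have e1 := RingHom.quotientKerEquivOfSurjective hsurj
  rw [← Nat.card_congr e1.toEquiv, hker, Nat.card_congr (Int.quotientSpanNatEquivZMod d).toEquiv,
    Nat.card_zmod]

lemma canNorm_eq (a : R2) (d : ℕ) (hd : Odd d) (h : Associated a (d : R2)) : canNorm a = d := by
  have ha : a ≠ 0 := by
    rintro rfl
    have := (associated_zero_iff_eq_zero _).mp h.symm
    exact hd.pos.ne' (by exact_mod_cast this)
  unfold canNorm
  rw [if_neg ha, Ideal.span_singleton_eq_span_singleton.mpr h, card_quot d hd]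

lemma assoc_nat (m : ℕ) (hm : m ≠ 0) : ∃ d : ℕ, Odd d ∧ d ≤ m ∧ Associated (m : R2) (d : R2) := by
  obtain ⟨e, d, hd, hed⟩ := Nat.exists_eq_two_pow_mul_odd hm
  refine ⟨d, hd, ?_, ?_⟩
  · rw [hed]; exact Nat.le_mul_of_pos_left _ (by positivity)
  · rw [hed]
    push_cast
    exact associated_unit_mul_left _ _ (isUnit_two.pow e)

lemma assoc (a : R2) (ha : a ≠ 0) : ∃ d : ℕ, Odd d ∧ Associated a (d : R2) := by
  obtain ⟨k, m, h⟩ := exists_int a
  have hm : m ≠ 0 := by
    rintro rfl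
    rw [Int.cast_zero, mul_eq_zero] at h
    rcases h with h | h
    · exact ha h
    · exact (isUnit_two.pow k).ne_zero h
  obtain ⟨d, hd, -, h1⟩ := assoc_nat m.natAbs (by simpa using hm)
  refine ⟨d, hd, ?_⟩
  have h2 : Associated a (m : R2) := by
    rw [← h]; exact associated_mul_unit_right _ _ (isUnit_two.pow k)
  have h3 : Associated (m : R2) (m.natAbs : R2) := by
    have := (Int.associated_natAbs m).map (Int.castRingHom R2)
    exact this
  exact h2.trans (h3.trans h1)

lemma fracNorm_of_small (z : ℚ) (hz : Small z) : 0 < fracNorm R2 z ∧ fracNorm R2 z < 1 := by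
  obtain ⟨m, d, i, j, hd, hm0, hmd, h⟩ := hz
  have hs := IsLocalization.sec_spec (nonZeroDivisors R2) z
  unfold fracNorm
  set a : R2 := (IsLocalization.sec (nonZeroDivisors R2) z).1 with ha
  set b : R2 := ((IsLocalization.sec (nonZeroDivisors R2) z).2 : R2) with hb
  have hb0 : b ≠ 0 := nonZeroDivisors.coe_ne_zero _
  have hs' : z * (b : ℚ) = (a : ℚ) := hs
  have heq : a * 2 ^ j * (d : R2) ^ 2 = b * ((m : R2) * 2 ^ i) := by
    apply Subtype.ext
    have h2 : ((2 : R2) : ℚ) = 2 := rfl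
    push_cast
    rw [h2, ← hs', ← h]
    ring
  have ha0 : a ≠ 0 := by
    intro h0
    rw [h0, zero_mul, zero_mul] at heq
    rcases mul_eq_zero.mp heq.symm with h1 | h1
    · exact hb0 h1
    · rcases mul_eq_zero.mp h1 with h2 | h2
      · exact hm0.ne' (by exact_mod_cast h2)
      · exact (isUnit_two.pow i).ne_zero h2
  obtain ⟨da, hda, h1⟩ := assoc a ha0
  obtain ⟨db, hdb, h2⟩ := assoc b hb0
  obtain ⟨dm, hdm, hle, h3⟩ := assoc_nat m hm0.ne'
  have e1 : canNorm (a * 2 ^ j * (d : R2) ^ 2) = da * d ^ 2 := by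
    apply canNorm_eq _ _ (hda.mul hd.pow)
    push_cast
    exact ((associated_mul_unit_left _ _ (isUnit_two.pow j)).trans h1).mul_right _
  have e2 : canNorm (b * ((m : R2) * 2 ^ i)) = db * dm := by
    apply canNorm_eq _ _ (hdb.mul hdm)
    push_cast
    exact h2.mul_mul ((associated_mul_unit_left _ _ (isUnit_two.pow i)).trans h3)
  have e3 : da * d ^ 2 = db * dm := by rw [← e1, ← e2, heq]
  rw [canNorm_eq a da hda h1, canNorm_eq b db hdb h2]
  have hda0 := hda.pos
  have hdb0 := hdb.pos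
  refine ⟨by positivity, ?_⟩
  rw [div_lt_one (by positivity)]
  have : da < db := by
    by_contra hge
    push Not at hge
    have h4 : db * dm < db * d ^ 2 := Nat.mul_lt_mul_of_pos_left (by omega) hdb0
    have h5 : db * d ^ 2 ≤ da * d ^ 2 := Nat.mul_le_mul_right _ hge
    omega
  exact_mod_cast this

/-- The diagonal form with integer coefficients `c`. -/
noncomputable def diag {n : ℕ} (c : Fin n → ℤ) : MvPolynomial (Fin n) R2 :=
  ∑ i, C (c i : R2) * X i ^ 2

lemma aeval_diag {n : ℕ} (c : Fin n → ℤ) (x : Fin n → ℚ) : aeval x (diag c) = Q c x := by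
  simp [diag, Q]

lemma eval_diag {n : ℕ} (c : Fin n → ℤ) (x : Fin n → R2) :
    eval x (diag c) = ∑ i, (c i : R2) * x i ^ 2 := by
  simp [diag]

lemma Q_eq_zero {n : ℕ} (c : Fin n → ℤ) (hc : ∀ i, 0 < c i) (x : Fin n → ℚ) (h : Q c x = 0) :
    x = 0 := by
  have h1 := (Finset.sum_eq_zero_iff_of_nonneg (s := Finset.univ)
    (f := fun i => (c i : ℚ) * x i ^ 2)
    (fun i _ => mul_nonneg (by exact_mod_cast (hc i).le) (sq_nonneg _))).mp h
  funext i
  have h2 := h1 i (Finset.mem_univ i)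
  have h3 : (c i : ℚ) ≠ 0 := by exact_mod_cast (hc i).ne'
  simpa [h3] using h2

lemma isForm_diag {n : ℕ} (c : Fin n → ℤ) (hc : ∀ i, 0 < c i) : IsForm ℚ (diag c) := by
  refine ⟨?_, ?_⟩
  · refine IsHomogeneous.sum _ _ _ fun i _ => ?_
    exact (isHomogeneous_X_pow i 2).C_mul _
  · intro x hx
    have h := hx x
    simp only [aeval_diag] at h
    apply Q_eq_zero c hc
    have h2 : Q c (x + x) = 4 * Q c x := by
      unfold Q
      rw [Finset.mul_sum]
      exact Finset.sum_congr rfl fun i _ => by simp only [Pi.add_apply]; ring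
    linarith

lemma anisotropic_diag {n : ℕ} (c : Fin n → ℤ) (hc : ∀ i, 0 < c i) : Anisotropic (diag c) := by
  intro a ha h
  apply ha
  rw [eval_diag] at h
  have h1 : Q c (fun i => (a i : ℚ)) = 0 := by
    have := congrArg (fun r : R2 => (r : ℚ)) h
    simpa [Q] using this
  have h2 := Q_eq_zero c hc _ h1
  funext i
  exact Subtype.ext (congrFun h2 i)

lemma prod_eq_of_iso {n : ℕ} (c c' : Fin n → ℤ) (h : Isomorphic (diag c) (diag c')) :
    ∃ r : R2, ((∏ i, c' i : ℤ) : R2) = r ^ 2 * ((∏ i, c i : ℤ) : R2) := by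
  obtain ⟨A, hA⟩ := h
  set M : Matrix (Fin n) (Fin n) R2 := (A : Matrix (Fin n) (Fin n) R2) with hM
  have hbil : ∀ x y : Fin n → R2, ∑ i, (c' i : R2) * (x i * y i)
      = ∑ i, (c i : R2) * (M.mulVec x i * M.mulVec y i) := by
    intro x y
    have h1 := hA (x + y)
    have h2 := hA x
    have h3 := hA y
    rw [eval_diag, eval_diag] at h1 h2 h3
    rw [Matrix.mulVec_add] at h1
    have e : ∀ (c : Fin n → ℤ) (x y : Fin n → R2), ∑ i, (c i : R2) * (x + y) i ^ 2
        = ∑ i, (c i : R2) * x i ^ 2 + ∑ i, (c i : R2) * y i ^ 2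
          + 2 * ∑ i, (c i : R2) * (x i * y i) := by
      intro c x y
      rw [Finset.mul_sum, ← Finset.sum_add_distrib, ← Finset.sum_add_distrib]
      exact Finset.sum_congr rfl fun i _ => by simp only [Pi.add_apply]; ring
    rw [e, e] at h1
    apply mul_left_cancel₀ isUnit_two.ne_zero
    linear_combination h1 - h2 - h3
  have hmat : Matrix.diagonal (fun i => (c' i : R2))
      = M.transpose * Matrix.diagonal (fun i => (c i : R2)) * M := by
    ext j k
    have h1 := hbil (Pi.single j 1) (Pi.single k 1)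
    simp only [Matrix.mulVec_single_one, Matrix.col_apply] at h1
    have h2 : (M.transpose * Matrix.diagonal (fun i => (c i : R2)) * M) j k
        = ∑ i, (c i : R2) * (M i j * M i k) := by
      rw [Matrix.mul_apply]
      exact Finset.sum_congr rfl fun i _ => by
        rw [Matrix.mul_diagonal, Matrix.transpose_apply]; ring
    rw [h2, ← h1]
    congr 1
    rw [Finset.sum_eq_single j]
    · by_cases hjk : j = k
      · subst hjk; simp
      · simp [hjk]
    · intro i _ hi
      simp [hi]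
    · simp
  have hdet := congrArg Matrix.det hmat
  rw [Matrix.det_mul, Matrix.det_mul, Matrix.det_transpose, Matrix.det_diagonal,
    Matrix.det_diagonal] at hdet
  refine ⟨M.det, ?_⟩
  push_cast
  rw [hdet]
  ring

theorem result : placesOverTwo.Finite ∧ ∀ n : ℕ, 15 ≤ n →
    ∃ q : ℕ → MvPolynomial (Fin n) (placesOverTwo.integer ℚ),
      (∀ k, IsForm ℚ (q k) ∧ Anisotropic (q k) ∧ IsEuclidean ℚ (q k)) ∧
      ∀ k l, k ≠ l → ¬ Isomorphic (q k) (q l) := by
  refine ⟨finite_places, fun n hn => ?_⟩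
  let i₀ : Fin n := ⟨14, by omega⟩
  let p : ℕ → ℕ := fun k => Nat.nth Nat.Prime (k + 1)
  have hp : ∀ k, (p k).Prime := fun k => Nat.prime_nth_prime _
  have hpinj : Function.Injective (Nat.nth Nat.Prime) :=
    Nat.nth_injective Nat.infinite_setOfPred_prime
  have hp2 : ∀ k, p k ≠ 2 := by
    intro k h
    have : Nat.nth Nat.Prime (k + 1) = Nat.nth Nat.Prime 0 := by
      rw [Nat.nth_prime_zero_eq_two]; exact h
    exact absurd (hpinj this) (by omega)
  let c : ℕ → Fin n → ℤ := fun k i => if i = i₀ then (p k : ℤ) else 1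
  have hc : ∀ k i, 0 < c k i := by
    intro k i
    simp only [c]
    split_ifs
    · exact_mod_cast (hp k).pos
    · exact one_pos
  have hprod : ∀ k, ∏ i, c k i = p k := by
    intro k
    simp [c]
  refine ⟨fun k => diag (c k), fun k => ⟨isForm_diag _ (hc k), anisotropic_diag _ (hc k), ?_⟩, ?_⟩
  · intro x hx
    let h : Fin 4 → Fin n := fun j => ⟨j.1, by omega⟩
    let g : Fin 6 ⊕ Fin 4 → Fin n :=
      Sum.elim (fun j => ⟨4 + j.1, by omega⟩) (fun j => ⟨10 + j.1, by omega⟩)
    have hc1 : ∀ i, i ≠ i₀ → c k i = 1 := fun i hi => by simp [c, hi]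
    obtain ⟨y, hy, hs⟩ := good_all (placesOverTwo.integer ℚ).toSubring mem_iff (c k)
      (fun i => (hc k i).le) h
      (fun a b hab => by simp only [h, Fin.mk.injEq] at hab; exact Fin.ext hab)
      (fun j => hc1 _ (by simp only [h, i₀, Ne, Fin.mk.injEq]; omega)) g
      (by
        rintro (a | a) (b | b) hab <;>
          simp only [g, Sum.elim_inl, Sum.elim_inr, Fin.mk.injEq] at hab
        · congr 1; exact Fin.ext (by omega)
        · omega
        · omega
        · congr 1; exact Fin.ext (by omega))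
      (by
        rintro (a | a) <;> apply hc1 <;>
          simp only [g, i₀, Sum.elim_inl, Sum.elim_inr, Ne, Fin.mk.injEq] <;> omega)
      (by
        rintro (a | a) b <;>
          simp only [g, h, Sum.elim_inl, Sum.elim_inr, Ne, Fin.mk.injEq] <;> omega)
      i₀ hc1
      (by
        have : c k i₀ = p k := by simp [c]
        rw [this]
        exact (Nat.prime_iff_prime_int.mp (hp k)).irreducible.squarefree)
      x (fun hall => hx ⟨fun i => ⟨x i, hall i⟩, fun i => rfl⟩)
    refine ⟨fun i => ⟨y i, hy i⟩, ?_⟩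
    rw [aeval_diag]
    exact fracNorm_of_small _ hs
  · intro k l hkl hiso
    obtain ⟨r, hr⟩ := prod_eq_of_iso _ _ hiso
    rw [hprod, hprod] at hr
    obtain ⟨e, m, hm⟩ := exists_int r
    have h1 : (((p l : ℤ) * (2 ^ e) ^ 2 : ℤ) : R2) = ((p k * m ^ 2 : ℤ) : R2) := by
      push_cast at hr ⊢
      rw [hr, ← hm]
      ring
    have h2 : (p l : ℤ) * (2 ^ e) ^ 2 = p k * m ^ 2 := Int.cast_injective h1
    have h3 : p k ∣ p l * (2 ^ e) ^ 2 := by
      have : (p k : ℤ) ∣ (p l : ℤ) * (2 ^ e) ^ 2 := ⟨_, h2⟩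
      exact_mod_cast this
    rcases (Nat.Prime.dvd_mul (hp k)).mp h3 with h4 | h4
    · have := (Nat.prime_dvd_prime_iff_eq (hp k) (hp l)).mp h4
      exact hkl (by have := hpinj this; omega)
    · have h5 := (hp k).dvd_of_dvd_pow ((hp k).dvd_of_dvd_pow h4)
      exact hp2 k ((Nat.prime_dvd_prime_iff_eq (hp k) Nat.prime_two).mp h5)

end Pool.Agent.Results.MP_23f460_nt.Infinite
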